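import Pool.Agent.Run7.h325.HRT.Stm

/-! Piece DIO0 of the project HRT (helper325): the square root of two is badly approximable. -/

set_option autoImplicit false

namespace Pool.Agent.Run7.h590.HRT

open Pool.Agent.Run7.h325.HRT

theorem dio0 : S_DIO0 := by
  intro h q hh
  have hD : D * D = 2 := by
    unfold D
    exact Real.mul_self_sqrt (by norm_num)
  have hD0 : 0 ≤ D := Real.sqrt_nonneg _
  have hD1 : D ≤ 3 / 2 := by
    unfold D
    rw [Real.sqrt_le_left (by norm_num)]
    norm_num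
  have hh1 : (1 : ℝ) ≤ |(h : ℝ)| := by
    have : (1 : ℤ) ≤ |h| := Int.one_le_abs hh
    exact_mod_cast this
  have hne : (2 * h ^ 2 - q ^ 2 : ℤ) ≠ 0 := by
    intro h0
    have h1 : (2 : ℝ) * (h : ℝ) ^ 2 = (q : ℝ) ^ 2 := by
      have : (2 * h ^ 2 : ℤ) = q ^ 2 := by linarith
      exact_mod_cast this
    have h2 : (q : ℝ) / h = D ∨ (q : ℝ) / h = - D := by
      have hh0 : (h : ℝ) ≠ 0 := by exact_mod_cast hh
      have h3 : ((q : ℝ) / h) ^ 2 = D ^ 2 := by
        rw [div_pow, ← h1, sq D, hD]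
        field_simp
      exact sq_eq_sq_iff_eq_or_eq_neg.1 h3
    have hirr : Irrational D := irrational_sqrt_two
    rcases h2 with h2 | h2
    · apply hirr
      refine ⟨(q : ℚ) / h, ?_⟩
      push_cast
      exact h2
    · apply hirr
      refine ⟨-((q : ℚ) / h), ?_⟩
      push_cast
      rw [h2]
      ring
  have hprod : 1 ≤ |D * h - q| * |D * h + q| := by
    rw [← abs_mul]
    have h1 : (D * h - q) * (D * h + q) = ((2 * h ^ 2 - q ^ 2 : ℤ) : ℝ) := by
      push_cast
      have : (D * h - q) * (D * h + q) = (D * D) * (h : ℝ) ^ 2 - (q : ℝ) ^ 2 := by ring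
      rw [this, hD]
    rw [h1]
    have h2 : (1 : ℤ) ≤ |2 * h ^ 2 - q ^ 2| := Int.one_le_abs hne
    exact_mod_cast h2
  by_cases h1 : |D * h - q| < 1
  · have h2 : |D * h + q| ≤ 5 * |(h : ℝ)| := by
      have h3 : |D * h + q| ≤ |2 * (D * h)| + |D * h - q| := by
        have h4 : D * h + q = 2 * (D * h) - (D * h - q) := by ring
        rw [h4]
        exact abs_sub _ _
      have h5 : |2 * (D * h)| ≤ 3 * |(h : ℝ)| := by
        rw [abs_mul, abs_mul, abs_of_nonneg hD0, abs_two]
        nlinarith [abs_nonneg (h : ℝ)]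
      linarith
    have h6 : 1 ≤ |D * h - q| * (5 * |(h : ℝ)|) :=
      hprod.trans (mul_le_mul_of_nonneg_left h2 (abs_nonneg _))
    rw [div_le_iff₀ (by positivity)]
    exact h6
  · push Not at h1
    refine le_trans ?_ h1
    rw [div_le_one (by positivity)]
    linarith

end Pool.Agent.Run7.h590.HRT
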