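import Pool.Agent.Run7.h325.HRT.Stm

/-! Piece HRT of the project HRT (helper325): from the equation of `S_L2` to the negation of the
conjecture. -/

set_option autoImplicit false

namespace Pool.Agent.Run7.h590.HRT

open Pool.Agent.Run7.h325.HRT MeasureTheory

noncomputable section

/-- the time-frequency point -/
def pt (a β : ℝ) : (Fin 1 → ℝ) × (Fin 1 → ℝ) := (fun _ => a, fun _ => β)

theorem pt_inj (a : ℝ) : Function.Injective (pt a) := by
  intro β β' h
  have h1 := congrFun (congrArg Prod.snd h) 0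
  exact h1

theorem hrt (hL : S_L2) (hT : S_TRIG) : S_HRT := by
  classical
  intro H
  obtain ⟨g, hg, hne, heq⟩ := hL
  obtain ⟨u, v, hu, hpa, hpb⟩ := hT
  have hmp := volume_preserving_funUnique (Fin 1) ℝ
  have hmp' := hmp.symm (MeasurableEquiv.funUnique (Fin 1) ℝ)
  set g' : (Fin 1 → ℝ) → ℂ := fun t => g (t 0) with hg'
  have hcomp : g' = g ∘ (MeasurableEquiv.funUnique (Fin 1) ℝ) := by
    funext t
    rfl
  have hmem : MemLp g' 2 volume := by
    rw [hcomp]
    exact hg.comp_measurePreserving hmp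
  have hne' : ¬ (g' =ᵐ[volume] 0) := by
    intro h0
    apply hne
    have h1 := hmp'.quasiMeasurePreserving.ae h0
    filter_upwards [h1] with x hx
    exact hx
  set s : Finset ((Fin 1 → ℝ) × (Fin 1 → ℝ)) :=
    u.support.image (pt 0) ∪ v.support.image (pt 1) with hs
  set c : (Fin 1 → ℝ) × (Fin 1 → ℝ) → ℂ := fun p =>
    if p.1 0 = 0 then u (p.2 0) else - v (p.2 0) with hc
  have hc0 : ∀ β, c (pt 0 β) = u β := by
    intro β
    simp [hc, pt]
  have hc1 : ∀ β, c (pt 1 β) = - v β := by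
    intro β
    simp [hc, pt]
  have hdisj : Disjoint (u.support.image (pt 0)) (v.support.image (pt 1)) := by
    rw [Finset.disjoint_left]
    intro p hp hp'
    obtain ⟨β, _, rfl⟩ := Finset.mem_image.1 hp
    obtain ⟨β', _, h⟩ := Finset.mem_image.1 hp'
    have h1 := congrFun (congrArg Prod.fst h) 0
    exact one_ne_zero h1
  have hzero : (fun t : Fin 1 → ℝ =>
      ∑ p ∈ s, c p *
        (Complex.exp (2 * (Real.pi : ℂ) * Complex.I * ((∑ i, p.2 i * t i : ℝ) : ℂ)) *
          g' (t - p.1))) =ᵐ[volume] 0 := by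
    have h1 := hmp.quasiMeasurePreserving.ae heq
    filter_upwards [h1] with t ht
    have ht' : pa (t 0) * g (t 0) - pb (t 0) * g (t 0 - 1) = 0 := ht
    rw [hs, Finset.sum_union hdisj, Finset.sum_image (fun _ _ _ _ h => pt_inj 0 h),
      Finset.sum_image (fun _ _ _ _ h => pt_inj 1 h)]
    simp only [hc0, hc1]
    have e0 : ∀ β : ℝ, g' (t - (pt 0 β).1) = g (t 0) := by
      intro β
      simp [hg', pt]
    have e1 : ∀ β : ℝ, g' (t - (pt 1 β).1) = g (t 0 - 1) := by
      intro β
      simp [hg', pt]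
    have e2 : ∀ a β : ℝ, (∑ i, (pt a β).2 i * t i : ℝ) = β * t 0 := by
      intro a β
      simp [pt]
    simp only [e0, e1, e2]
    rw [hpa, hpb, Finset.sum_mul, Finset.sum_mul] at ht'
    rw [Pi.zero_apply, ← ht']
    have f1 : ∑ x ∈ u.support, u x * (Complex.exp (2 * (Real.pi : ℂ) * Complex.I *
        ((x * t 0 : ℝ) : ℂ)) * g (t 0)) = ∑ i ∈ u.support, u i *
        Complex.exp (2 * (Real.pi : ℂ) * Complex.I * ((i * t 0 : ℝ) : ℂ)) * g (t 0) :=
      Finset.sum_congr rfl fun β _ => by ring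
    have f2 : ∑ x ∈ v.support, -v x * (Complex.exp (2 * (Real.pi : ℂ) * Complex.I *
        ((x * t 0 : ℝ) : ℂ)) * g (t 0 - 1)) = - ∑ i ∈ v.support, v i *
        Complex.exp (2 * (Real.pi : ℂ) * Complex.I * ((i * t 0 : ℝ) : ℂ)) * g (t 0 - 1) := by
      rw [← Finset.sum_neg_distrib]
      exact Finset.sum_congr rfl fun β _ => by ring
    rw [f1, f2, ← sub_eq_add_neg]
  have hfin := H 1 g' hmem hne' s c hzero
  apply hu
  ext β
  by_cases hβ : β ∈ u.support
  · have h1 := hfin (pt 0 β) (Finset.mem_union_left _ (Finset.mem_image_of_mem _ hβ))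
    rw [hc0] at h1
    rw [h1]
    rfl
  · rw [Finsupp.notMem_support_iff.1 hβ]
    rfl

end

end Pool.Agent.Run7.h590.HRT
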