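import Pool.Agent.Run7.h325.HRT.Stm

/-! Piece TRIG of the project HRT (helper325): the coefficients of the equation are trigonometric
polynomials. -/

set_option autoImplicit false

namespace Pool.Agent.Run7.h590.HRT

open Pool.Agent.Run7.h325.HRT

noncomputable section

/-- The character `β ↦ exp (2 π i β x)`. -/
def chi (x : ℝ) : Multiplicative ℝ →* ℂ where
  toFun β := Complex.exp (2 * (Real.pi : ℂ) * Complex.I * ((β.toAdd * x : ℝ) : ℂ))
  map_one' := by simp
  map_mul' := by
    intro a b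
    rw [← Complex.exp_add]
    congr 1
    rw [toAdd_mul]
    push_cast
    ring

/-- Evaluation of an element of the group algebra at `x`. -/
def ev (x : ℝ) : AddMonoidAlgebra ℂ ℝ →ₐ[ℂ] ℂ := AddMonoidAlgebra.lift ℂ ℂ ℝ (chi x)

theorem ev_eq (x : ℝ) (f : AddMonoidAlgebra ℂ ℝ) : ev x f = ∑ β ∈ f.coeff.support,
    f.coeff β * Complex.exp (2 * (Real.pi : ℂ) * Complex.I * ((β * x : ℝ) : ℂ)) := by
  unfold ev
  rw [AddMonoidAlgebra.lift_apply]
  rfl

/-- The element of the group algebra with the values `w A (x - 1/2)`. -/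
def W (A : ℝ) : AddMonoidAlgebra ℂ ℝ :=
  AddMonoidAlgebra.single ((1 - A) * D)
    ((A : ℂ) * Complex.exp (((-(Real.pi * ((1 - A) * D)) : ℝ) : ℂ) * Complex.I)) +
  AddMonoidAlgebra.single (-(A * D))
    (((1 - A : ℝ) : ℂ) * Complex.exp (((Real.pi * (A * D) : ℝ) : ℂ) * Complex.I))

theorem ev_W (A x : ℝ) : ev x (W A) = w A (x - 1 / 2) := by
  unfold ev W w
  rw [map_add, AddMonoidAlgebra.lift_single, AddMonoidAlgebra.lift_single]
  simp only [chi, MonoidHom.coe_mk, OneHom.coe_mk, toAdd_ofAdd, smul_eq_mul]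
  rw [mul_assoc (A : ℂ), mul_assoc ((1 - A : ℝ) : ℂ), ← Complex.exp_add, ← Complex.exp_add]
  congr 3
  · push_cast
    ring
  · push_cast
    ring

/-- The element of the group algebra with the values `pa x`. -/
def U (s : ℂ) : AddMonoidAlgebra ℂ ℝ :=
  ∏ m ∈ Finset.Icc 128 131072, (1 + s • W (Am m))

theorem ev_U (s : ℂ) (x : ℝ) : ev x (U s) =
    ∏ m ∈ Finset.Icc 128 131072, (1 + s * w (Am m) (x - 1 / 2)) := by
  unfold U
  rw [map_prod]
  refine Finset.prod_congr rfl fun m _ => ?_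
  rw [map_add, map_one, map_smul, ev_W, smul_eq_mul]

theorem w_zero (A : ℝ) : w A 0 = 1 := by
  unfold w
  simp

/-- `pa` does not vanish at `x = 1/2`, as `w A 0 = 1`. -/
theorem pa_ne : ∃ x : ℝ, pa x ≠ 0 := by
  refine ⟨1 / 2, ?_⟩
  unfold pa
  rw [Finset.prod_ne_zero_iff]
  intro m _
  rw [sub_self, w_zero, mul_one]
  intro h
  have h1 := congrArg Complex.re h
  simp at h1

theorem trig : S_TRIG := by
  refine ⟨(U Complex.I).coeff, (U (-Complex.I)).coeff, ?_, ?_, ?_⟩
  · intro h0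
    obtain ⟨x, hx⟩ := pa_ne
    apply hx
    have h1 := ev_U Complex.I x
    rw [ev_eq, h0] at h1
    simp only [Finsupp.support_zero, Finset.sum_empty] at h1
    exact h1.symm
  · intro x
    rw [← ev_eq, ev_U]
    rfl
  · intro x
    rw [← ev_eq, ev_U]
    unfold pb
    refine Finset.prod_congr rfl fun m _ => ?_
    ring

end

end Pool.Agent.Run7.h590.HRT
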